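import Pool.Agent.W2helper1.DG.Stm

/-!
# Project DG (MP_2da123_co), piece L3lin (helper82)
-/

set_option autoImplicit false

namespace Pool.Agent.W2helper82.DG

open Finset
open Pool.Agent.W2helper1.DG (D3)

theorem cramer (a u v z : Fin 3 → ℝ) :
    D3 u v z • a - D3 a v z • u + D3 a u z • v - D3 a u v • z = 0 := by
  funext i
  fin_cases i <;> simp [D3] <;> ring

theorem D3_swap (a u v : Fin 3 → ℝ) : D3 a v u = - D3 a u v := by
  unfold D3; ring

theorem D3_self (a u : Fin 3 → ℝ) : D3 a u u = 0 := by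
  unfold D3; ring

theorem cramer_map (l : (Fin 3 → ℝ) →ₗ[ℝ] ℝ) (a u v z : Fin 3 → ℝ) :
    D3 u v z * l a - D3 a v z * l u + D3 a u z * l v - D3 a u v * l z = 0 := by
  have h := congrArg l (cramer a u v z)
  simpa only [map_sub, map_add, map_smul, smul_eq_mul, map_zero] using h

/-- three different vectors are independent -/
theorem D3_ne_zero {V : Type} (x : V → Fin 3 → ℝ)
    (hl : ∀ v, ∃ l : (Fin 3 → ℝ) →ₗ[ℝ] ℝ, l (x v) = 0 ∧ ∀ u, u ≠ v → 0 < l (x u))
    (a b c : V) (hab : a ≠ b) (hac : a ≠ c) (hbc : b ≠ c) : D3 (x a) (x b) (x c) ≠ 0 := by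
  intro h0
  set M : Matrix (Fin 3) (Fin 3) ℝ := Matrix.of fun i j => (![x a, x b, x c] : Fin 3 → Fin 3 → ℝ) j i
    with hM
  have hdet : M.det = 0 := by
    rw [Matrix.det_fin_three]
    simp only [hM, Matrix.of_apply, Matrix.cons_val_zero, Matrix.cons_val_one,
      Matrix.cons_val]
    unfold D3 at h0
    linarith
  obtain ⟨w, hw, hMw⟩ := Matrix.exists_mulVec_eq_zero_iff.2 hdet
  have hrel : w 0 • x a + w 1 • x b + w 2 • x c = 0 := by
    funext i
    have h1 := congrFun hMw i
    simp only [Matrix.mulVec, dotProduct, Fin.sum_univ_three, hM, Matrix.of_apply,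
      Matrix.cons_val_zero, Matrix.cons_val_one, Matrix.cons_val, Pi.zero_apply] at h1
    simp only [Pi.add_apply, Pi.smul_apply, smul_eq_mul, Pi.zero_apply]
    linarith
  have happ : ∀ l : (Fin 3 → ℝ) →ₗ[ℝ] ℝ, w 0 * l (x a) + w 1 * l (x b) + w 2 * l (x c) = 0 := by
    intro l
    have h := congrArg l hrel
    simpa only [map_add, map_smul, smul_eq_mul, map_zero] using h
  obtain ⟨la, hla0, hla⟩ := hl a
  obtain ⟨lb, hlb0, hlb⟩ := hl b
  obtain ⟨lc, hlc0, hlc⟩ := hl c
  have e1 := happ la
  have e2 := happ lb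
  have e3 := happ lc
  rw [hla0, mul_zero, zero_add] at e1
  rw [hlb0, mul_zero, add_zero] at e2
  rw [hlc0, mul_zero, add_zero] at e3
  have p1 := hla b hab.symm
  have p2 := hla c hac.symm
  have p3 := hlb a hab
  have p4 := hlb c hbc.symm
  have p5 := hlc a hac
  have p6 := hlc b hbc
  have hw0 : w 0 = 0 := by
    rcases lt_trichotomy (w 0) 0 with h | h | h
    · exfalso
      have q1 : 0 < w 2 := by
        by_contra hc
        push Not at hc
        nlinarith
      have q2 : 0 < w 1 := by
        by_contra hc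
        push Not at hc
        nlinarith
      nlinarith
    · exact h
    · exfalso
      have q1 : w 2 < 0 := by
        by_contra hc
        push Not at hc
        nlinarith
      have q2 : w 1 < 0 := by
        by_contra hc
        push Not at hc
        nlinarith
      nlinarith
  rw [hw0, zero_mul, zero_add] at e2 e3
  have hw2 : w 2 = 0 := by
    rcases mul_eq_zero.1 e2 with h | h
    · exact h
    · exact absurd h p4.ne'
  have hw1 : w 1 = 0 := by
    rcases mul_eq_zero.1 e3 with h | h
    · exact h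
    · exact absurd h p6.ne'
  apply hw
  funext i
  fin_cases i
  · exact hw0
  · exact hw1
  · exact hw2

theorem s_l3lin : Pool.Agent.W2helper1.DG.S_L3lin := by
  classical
  intro V _ x m hcard hl
  have hne : Nonempty V := by
    rw [← Fintype.card_pos_iff, hcard]; omega
  obtain ⟨v0⟩ := hne
  obtain ⟨l0, hl00, hl0⟩ := hl v0
  let r : {v // v ≠ v0} → {v // v ≠ v0} → Prop := fun u v => 0 < D3 (x v0) (x u) (x v)
  have htri : ∀ u v : {v // v ≠ v0}, r u v ∨ u = v ∨ r v u := by
    intro u v
    by_cases huv : u = v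
    · exact Or.inr (Or.inl huv)
    · have h1 := D3_ne_zero x hl v0 u v u.2.symm v.2.symm (fun h => huv (Subtype.ext h))
      rcases lt_or_gt_of_ne h1 with h | h
      · refine Or.inr (Or.inr ?_)
        change 0 < D3 (x v0) (x v) (x u)
        rw [D3_swap]
        linarith
      · exact Or.inl h
  have htrans : ∀ u v z : {v // v ≠ v0}, r u v → r v z → r u z := by
    intro u v z h1 h2
    have h3 := cramer_map l0 (x v0) (x u) (x v) (x z)
    rw [hl00, mul_zero, zero_sub] at h3
    have p1 := hl0 u u.2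
    have p2 := hl0 v v.2
    have p3 := hl0 z z.2
    change 0 < D3 (x v0) (x u) (x v) at h1
    change 0 < D3 (x v0) (x v) (x z) at h2
    change 0 < D3 (x v0) (x u) (x z)
    by_contra hc
    push Not at hc
    nlinarith [mul_pos h1 p3, mul_pos h2 p1]
  have hirr : ∀ u : {v // v ≠ v0}, ¬ r u u := by
    intro u h
    change 0 < D3 (x v0) (x u) (x u) at h
    rw [D3_self] at h
    exact lt_irrefl _ h
  have : IsStrictTotalOrder {v // v ≠ v0} r :=
    { trichotomous := by
        intro a b h1 h2
        rcases htri a b with h | h | h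
        · exact absurd h h1
        · exact h
        · exact absurd h h2
      irrefl := hirr
      trans := htrans }
  let _ : LinearOrder {v // v ≠ v0} := linearOrderOfSTO r
  have hcard' : Fintype.card {v // v ≠ v0} = m + 2 := by
    rw [Fintype.card_subtype_compl, hcard]
    simp
  let e : Fin (m + 2) ≃o {v // v ≠ v0} := monoEquivOfFin _ hcard'
  let c : Fin (m + 3) ≃ V :=
    (finSuccEquiv (m + 2)).trans ((Equiv.optionCongr e.toEquiv).trans (Equiv.optionSubtypeNe v0))
  have hc0 : c 0 = v0 := by simp [c]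
  have hcs : ∀ i : Fin (m + 2), c i.succ = (e i : V) := fun i => by simp [c]
  have hmono : ∀ i j : Fin (m + 2), i < j → 0 < D3 (x v0) (x (e i)) (x (e j)) := by
    intro i j hij
    have h : e i < e j := e.strictMono hij
    exact h
  refine ⟨c, ?_⟩
  intro i j k hij hjk
  obtain ⟨j', rfl⟩ := Fin.exists_succ_eq.2 (show j ≠ 0 from fun h => by
    rw [h] at hij; exact absurd hij (Fin.not_lt_zero i))
  obtain ⟨k', rfl⟩ := Fin.exists_succ_eq.2 (show k ≠ 0 from fun h => by
    rw [h] at hjk; exact absurd hjk (Fin.not_lt_zero _))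
  have hjk' : j' < k' := Fin.succ_lt_succ_iff.1 hjk
  by_cases hi : i = 0
  · subst hi
    rw [hc0, hcs, hcs]
    exact hmono j' k' hjk'
  · obtain ⟨i', rfl⟩ := Fin.exists_succ_eq.2 hi
    have hij' : i' < j' := Fin.succ_lt_succ_iff.1 hij
    rw [hcs, hcs, hcs]
    have h1 := hmono i' j' hij'
    have h2 := hmono j' k' hjk'
    obtain ⟨l, hl1, hl2⟩ := hl (e j' : V)
    have h3 := cramer_map l (x v0) (x (e i')) (x (e j')) (x (e k'))
    rw [hl1, mul_zero, add_zero] at h3
    have hne1 : (e i' : V) ≠ (e j' : V) := fun h =>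
      (ne_of_lt hij') (e.injective (Subtype.ext h))
    have hne2 : (e k' : V) ≠ (e j' : V) := fun h =>
      (ne_of_gt hjk') (e.injective (Subtype.ext h))
    have p1 := hl2 v0 (e j').2.symm
    have p2 := hl2 _ hne1
    have p3 := hl2 _ hne2
    by_contra hcon
    push Not at hcon
    nlinarith [mul_pos h1 p3, mul_pos h2 p2]

end Pool.Agent.W2helper82.DG
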