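import Pool.Agent.W2helper1.DG.Stm

/-!
# Project DG (MP_2da123_co), piece NC (helper82)
-/

set_option autoImplicit false

namespace Pool.Agent.W2helper82.DG

open Finset

theorem neg_imp (a b x : ℕ) (hab : a < b) (h : ((x : ℝ) - a) * ((x : ℝ) - b) < 0) : a < x ∧ x < b := by
  have hab' : (a : ℝ) < b := by exact_mod_cast hab
  constructor
  · by_contra hc
    push Not at hc
    have hc' : (x : ℝ) ≤ a := by exact_mod_cast hc
    nlinarith
  · by_contra hc
    push Not at hc
    have hc' : (b : ℝ) ≤ x := by exact_mod_cast hc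
    nlinarith

theorem pos_imp (a b x : ℕ) (h : 0 < ((x : ℝ) - a) * ((x : ℝ) - b)) : x < a ∨ b < x := by
  by_contra hc
  push Not at hc
  have h1 : (a : ℝ) ≤ x := by exact_mod_cast hc.1
  have h2 : (x : ℝ) ≤ b := by exact_mod_cast hc.2
  nlinarith

theorem s_nc : Pool.Agent.W2helper1.DG.S_NC := by
  classical
  intro m A hsym hcyc hcr i k hik hnA
  -- the choice of `j`
  have hsucc : ((i + 1 : Fin (m + 3)) : ℕ) = (i : ℕ) + 1 := by
    rw [Fin.val_add_one_of_lt]
    have h1 : (i : ℕ) < k := hik
    have h2 : (k : ℕ) < m + 3 := k.2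
    rw [Fin.lt_def]
    simp only [Fin.val_last]
    omega
  have hjex : (univ.filter fun j : Fin (m + 3) => i < j ∧ j < k ∧ A i j).Nonempty := by
    refine ⟨i + 1, mem_filter.2 ⟨mem_univ _, ?_, ?_, hcyc i⟩⟩
    · rw [Fin.lt_def, hsucc]; omega
    · rw [Fin.lt_def, hsucc]
      have h1 : (i : ℕ) < k := hik
      have h2 : i + 1 ≠ k := fun h => hnA (h ▸ hcyc i)
      have h3 : (i : ℕ) + 1 ≠ k := fun h => h2 (Fin.ext (hsucc.trans h))
      omega
  obtain ⟨j, hj, hjmax⟩ := Finset.exists_max_image _ (fun j : Fin (m + 3) => (j : ℕ)) hjex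
  obtain ⟨-, hij, hjk, hAij⟩ := mem_filter.1 hj
  have hjmax' : ∀ b : Fin (m + 3), i < b → b < k → A i b → ¬ j < b := by
    intro b h1 h2 h3 h4
    have := hjmax b (mem_filter.2 ⟨mem_univ _, h1, h2, h3⟩)
    rw [Fin.lt_def] at h4
    omega
  by_cases hlex : (univ.filter fun l : Fin (m + 3) => k < l ∧ A i l).Nonempty
  · obtain ⟨l, hl, hlmin⟩ := Finset.exists_min_image _ (fun j : Fin (m + 3) => (j : ℕ)) hlex
    obtain ⟨-, hkl, hAil⟩ := mem_filter.1 hl
    have hlmin' : ∀ b : Fin (m + 3), k < b → A i b → ¬ b < l := by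
      intro b h1 h2 h3
      have := hlmin b (mem_filter.2 ⟨mem_univ _, h1, h2⟩)
      rw [Fin.lt_def] at h3
      omega
    refine ⟨j, l, hij, hjk, Or.inr hkl, fun a b hab hAab => ?_⟩
    by_contra hneg
    push Not at hneg
    rcases mul_neg_iff.1 hneg with ⟨h1, h2⟩ | ⟨h1, h2⟩
    · -- `l` inside, `j` outside
      have h3 := neg_imp _ _ _ hab h2
      have h4 := pos_imp _ _ _ h1
      have hja : j < a := by
        rw [Fin.lt_def] at *
        omega
      have hal : a < l := h3.1
      have hlb : l < b := h3.2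
      exact hcr i a l b (hij.trans hja) hal hlb ⟨hAil, hAab⟩
    · have h3 := neg_imp _ _ _ hab h1
      have h4 := pos_imp _ _ _ h2
      have haj : a < j := h3.1
      have hjb : j < b := h3.2
      have hbl : b < l := by
        rw [Fin.lt_def] at *
        omega
      rcases lt_trichotomy a i with hai | hai | hai
      · exact hcr a i b l hai (hij.trans hjb) hbl ⟨hAab, hAil⟩
      · subst hai
        rcases lt_trichotomy b k with hbk | hbk | hbk
        · exact hjmax' b (hij.trans hjb) hbk hAab hjb
        · exact hnA (hbk ▸ hAab)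
        · exact hlmin' b hbk hAab hbl
      · exact hcr i a j b hai haj hjb ⟨hAij, hAab⟩
  · have hno : ∀ l : Fin (m + 3), k < l → ¬ A i l := fun l h1 h2 =>
      hlex ⟨l, mem_filter.2 ⟨mem_univ _, h1, h2⟩⟩
    have hlex' : (univ.filter fun l : Fin (m + 3) => l < i ∧ A i l).Nonempty := by
      rcases Nat.eq_zero_or_pos (i : ℕ) with hi0 | hipos
      · exfalso
        have h1 : A (Fin.last (m + 2)) i := by
          have h2 := hcyc (Fin.last (m + 2))
          have h3 : Fin.last (m + 2) + 1 = i := by
            rw [Fin.last_add_one]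
            exact Fin.ext hi0.symm
          rwa [h3] at h2
        have h4 : k ≠ Fin.last (m + 2) := fun h => hnA (h ▸ hsym _ _ h1)
        exact hno (Fin.last (m + 2)) (lt_of_le_of_ne (Fin.le_last k) h4) (hsym _ _ h1)
      · have hlt : (i : ℕ) - 1 < m + 3 := by have := i.2; omega
        refine ⟨⟨(i : ℕ) - 1, hlt⟩, mem_filter.2 ⟨mem_univ _, ?_, ?_⟩⟩
        · rw [Fin.lt_def]
          simp only
          omega
        · apply hsym
          have h2 := hcyc ⟨(i : ℕ) - 1, hlt⟩
          have h3 : (⟨(i : ℕ) - 1, hlt⟩ : Fin (m + 3)) + 1 = i := by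
            apply Fin.ext
            rw [Fin.val_add_one_of_lt]
            · simp only
              omega
            · rw [Fin.lt_def]
              simp only [Fin.val_last]
              have := i.2
              omega
          rwa [h3] at h2
    obtain ⟨l, hl, hlmin⟩ := Finset.exists_min_image _ (fun j : Fin (m + 3) => (j : ℕ)) hlex'
    obtain ⟨-, hli, hAil⟩ := mem_filter.1 hl
    have hlmin' : ∀ b : Fin (m + 3), b < i → A i b → ¬ b < l := by
      intro b h1 h2 h3
      have := hlmin b (mem_filter.2 ⟨mem_univ _, h1, h2⟩)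
      rw [Fin.lt_def] at h3
      omega
    refine ⟨j, l, hij, hjk, Or.inl hli, fun a b hab hAab => ?_⟩
    by_contra hneg
    push Not at hneg
    rcases mul_neg_iff.1 hneg with ⟨h1, h2⟩ | ⟨h1, h2⟩
    · -- `l` inside, `j` outside
      have h3 := neg_imp _ _ _ hab h2
      have h4 := pos_imp _ _ _ h1
      have hbj : b < j := by
        rw [Fin.lt_def] at *
        omega
      have hal : a < l := h3.1
      have hlb : l < b := h3.2
      rcases lt_trichotomy b i with hbi | hbi | hbi
      · exact hcr a l b i hal hlb hbi ⟨hAab, hsym _ _ hAil⟩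
      · subst hbi
        exact hlmin' a (hal.trans hli) (hsym _ _ hAab) hal
      · exact hcr a i b j (hal.trans hli) hbi hbj ⟨hAab, hAij⟩
    · have h3 := neg_imp _ _ _ hab h1
      have h4 := pos_imp _ _ _ h2
      have haj : a < j := h3.1
      have hjb : j < b := h3.2
      have hla : l < a := by
        rw [Fin.lt_def] at *
        omega
      rcases lt_trichotomy a i with hai | hai | hai
      · exact hcr l a i b hla hai (hij.trans hjb) ⟨hsym _ _ hAil, hAab⟩
      · subst hai
        rcases lt_trichotomy b k with hbk | hbk | hbk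
        · exact hjmax' b (hij.trans hjb) hbk hAab hjb
        · exact hnA (hbk ▸ hAab)
        · exact hno b hbk hAab
      · exact hcr i a j b hai haj hjb ⟨hAij, hAab⟩

end Pool.Agent.W2helper82.DG
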